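import Pool.Agent.MP_40e425_nt.Main80

/-!
The truncated q-congruence with fifth powers modulo the third power of a cyclotomic polynomial.
-/

set_option linter.unusedSectionVars false

namespace Pool.Agent.Results.MP_40e425_nt.FifthPowers

open Finset Polynomial

/-- The q-integer `[N] = (1 - q ^ N) / (1 - q)` in `ℚ(q)`; here `q` is `RatFunc.X`. -/
noncomputable def qInt (N : ℕ) : RatFunc ℚ := (1 - RatFunc.X ^ N) / (1 - RatFunc.X)

/-- `a_k(q)`, the product over `1 ≤ j ≤ k` of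
`(1 - q ^ (2 j - 1)) ^ 4 (1 - q ^ (4 j - 2)) / ((1 - q ^ (2 j)) ^ 4 (1 - q ^ (4 j)))`. -/
noncomputable def aCoeff (k : ℕ) : RatFunc ℚ :=
  ∏ j ∈ Icc 1 k, ((1 - RatFunc.X ^ (2 * j - 1)) ^ 4 * (1 - RatFunc.X ^ (4 * j - 2))) /
    ((1 - RatFunc.X ^ (2 * j)) ^ 4 * (1 - RatFunc.X ^ (4 * j)))

/-- `c_k = (binom (2 k) k / 4 ^ k) ^ 5`. -/
def cCoeff (k : ℕ) : ℚ := ((1 / 4 ^ k) * (Nat.choose (2 * k) k : ℚ)) ^ 5

/-- `S_{m,n}(q)`. -/
noncomputable def S (m n : ℕ) : RatFunc ℚ :=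
  ∑ k ∈ range (m * n), (-1) ^ k * qInt (4 * k + 1) * aCoeff k * RatFunc.X ^ k

/-- `λ_n(q)`. -/
noncomputable def lam (n : ℕ) : RatFunc ℚ :=
  qInt n * ∏ j ∈ Icc 1 ((n - 1) / 4),
    ((1 - RatFunc.X ^ (4 * j - 2)) / (1 - RatFunc.X ^ (4 * j))) ^ 2

/-- `T_{m,n}(q)`. -/
noncomputable def T (m n : ℕ) : RatFunc ℚ :=
  lam n * ∑ k ∈ range m, (-1) ^ k * (4 * (k : RatFunc ℚ) + 1) * ((cCoeff k : ℚ) : RatFunc ℚ)

/-- Congruence of rational functions modulo a polynomial `P`: `A - B = P * C / D` with polynomials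
`C`, `D` and `D` coprime to `P`. -/
def CongrMod (P : ℚ[X]) (A B : RatFunc ℚ) : Prop :=
  ∃ C D : ℚ[X], D ≠ 0 ∧ IsCoprime D P ∧
    A - B = algebraMap ℚ[X] (RatFunc ℚ) P * algebraMap ℚ[X] (RatFunc ℚ) C /
      algebraMap ℚ[X] (RatFunc ℚ) D

/-- The local ring of rational functions whose denominator is coprime to `P`. -/
noncomputable def locRing (P : ℚ[X]) : Subring (RatFunc ℚ) where
  carrier := {x | ∃ C D : ℚ[X], D ≠ 0 ∧ IsCoprime D P ∧
    x = algebraMap ℚ[X] (RatFunc ℚ) C / algebraMap ℚ[X] (RatFunc ℚ) D}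
  mul_mem' := by
    rintro _ _ ⟨C, D, hD, hc, rfl⟩ ⟨C', D', hD', hc', rfl⟩
    refine ⟨C * C', D * D', mul_ne_zero hD hD', hc.mul_left hc', ?_⟩
    rw [map_mul, map_mul]
    ring
  one_mem' := ⟨1, 1, one_ne_zero, isCoprime_one_left, by simp⟩
  add_mem' := by
    rintro _ _ ⟨C, D, hD, hc, rfl⟩ ⟨C', D', hD', hc', rfl⟩
    refine ⟨C * D' + C' * D, D * D', mul_ne_zero hD hD', hc.mul_left hc', ?_⟩
    have h1 : algebraMap ℚ[X] (RatFunc ℚ) D ≠ 0 := by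
      simpa using hD
    have h2 : algebraMap ℚ[X] (RatFunc ℚ) D' ≠ 0 := by
      simpa using hD'
    rw [map_mul, map_add, map_mul, map_mul]
    field_simp
  zero_mem' := ⟨0, 1, one_ne_zero, isCoprime_one_left, by simp⟩
  neg_mem' := by
    rintro _ ⟨C, D, hD, hc, rfl⟩
    exact ⟨-C, D, hD, hc, by rw [map_neg]; ring⟩

theorem poly_mem (P p : ℚ[X]) : algebraMap ℚ[X] (RatFunc ℚ) p ∈ locRing P :=
  ⟨p, 1, one_ne_zero, isCoprime_one_left, by simp⟩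

theorem inv_mem {P p : ℚ[X]} (hp : p ≠ 0) (h : IsCoprime p P) :
    (algebraMap ℚ[X] (RatFunc ℚ) p)⁻¹ ∈ locRing P :=
  ⟨1, p, hp, h, by simp⟩

theorem coprime_one_sub {n i : ℕ} (h : ¬ n ∣ i) :
    IsCoprime (1 - X ^ i : ℚ[X]) (cyclotomic n ℚ) := by
  have hi : 0 < i := Nat.pos_of_ne_zero (by rintro rfl; exact h (dvd_zero n))
  have h1 : IsCoprime (X ^ i - 1 : ℚ[X]) (cyclotomic n ℚ) := by
    rw [← prod_cyclotomic_eq_X_pow_sub_one hi]
    apply IsCoprime.prod_left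
    intro d hd
    apply cyclotomic.isCoprime_rat
    rintro rfl
    exact h (Nat.dvd_of_mem_divisors hd)
  have h2 := h1.neg_left
  rwa [neg_sub] at h2

theorem one_sub_ne {i : ℕ} (hi : 0 < i) : (1 - X ^ i : ℚ[X]) ≠ 0 := by
  intro h
  have := congrArg (fun p => coeff p 0) h
  simp [hi.ne] at this

theorem cyc_dvd (n : ℕ) : cyclotomic n ℚ ∣ X ^ n - 1 := cyclotomic.dvd_X_pow_sub_one n ℚ

/-- the context -/
noncomputable def ctx (M : ℕ) : Pool.Agent.MP_40e425_nt.Core80.Ctx (RatFunc ℚ) where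
  O := locRing (cyclotomic (4 * M + 1) ℚ)
  q := RatFunc.X
  M := M
  hq0 := RatFunc.X_ne_zero
  hq := by
    rw [← RatFunc.algebraMap_X]
    exact poly_mem _ _
  hqi := by
    rw [← RatFunc.algebraMap_X]
    apply inv_mem X_ne_zero
    apply IsCoprime.of_isCoprime_of_dvd_right _ (cyc_dvd _)
    exact ⟨X ^ (4 * M), -1, by rw [← pow_succ, neg_one_mul]; exact add_neg_eq_of_eq_add (by ring)⟩
  hroot := by
    intro i hi h
    rw [← RatFunc.algebraMap_X, ← map_pow, ← map_one (algebraMap ℚ[X] (RatFunc ℚ))] at h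
    have h2 := RatFunc.algebraMap_injective ℚ h
    exact one_sub_ne hi (by rw [h2, sub_self])
  hunit := by
    intro i hi
    rw [← RatFunc.algebraMap_X, ← map_pow, ← map_one (algebraMap ℚ[X] (RatFunc ℚ)), ← map_sub]
    have hi0 : 0 < i := Nat.pos_of_ne_zero (by rintro rfl; exact hi (dvd_zero _))
    exact inv_mem (one_sub_ne hi0) (coprime_one_sub hi)
  hQ := by
    intro A hA
    have hmap : ∑ i ∈ range A, ((RatFunc.X : RatFunc ℚ) ^ (4 * M + 1)) ^ i =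
        algebraMap ℚ[X] (RatFunc ℚ) (∑ i ∈ range A, (X ^ (4 * M + 1)) ^ i) := by
      rw [map_sum]
      simp [RatFunc.algebraMap_X]
    rw [hmap]
    have hcop : IsCoprime (∑ i ∈ range A, ((X : ℚ[X]) ^ (4 * M + 1)) ^ i) (X ^ (4 * M + 1) - 1) := by
      have hdvd : (X : ℚ[X]) ^ (4 * M + 1) - 1 ∣ (∑ i ∈ range A, ((X : ℚ[X]) ^ (4 * M + 1)) ^ i) -
          C (A : ℚ) := by
        have : (∑ i ∈ range A, ((X : ℚ[X]) ^ (4 * M + 1)) ^ i) - C (A : ℚ) =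
            ∑ i ∈ range A, (((X : ℚ[X]) ^ (4 * M + 1)) ^ i - 1 ^ i) := by
          rw [sum_sub_distrib]
          simp
        rw [this]
        apply Finset.dvd_sum
        intro i _
        exact sub_dvd_pow_sub_pow _ _ _
      obtain ⟨w, hw⟩ := hdvd
      refine ⟨C (A : ℚ)⁻¹, -(C (A : ℚ)⁻¹ * w), ?_⟩
      have hA' : (A : ℚ) ≠ 0 := by exact_mod_cast hA.ne'
      have : C (A : ℚ)⁻¹ * C (A : ℚ) = (1 : ℚ[X]) := by
        rw [← C_mul, inv_mul_cancel₀ hA', C_1]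
      linear_combination this + C (A : ℚ)⁻¹ * hw
    apply inv_mem
    · intro h0
      rw [h0, isCoprime_zero_left] at hcop
      have h1 := natDegree_eq_zero_of_isUnit hcop
      have h2 : (X ^ (4 * M + 1) - 1 : ℚ[X]).natDegree = 4 * M + 1 := by
        rw [← C_1]; exact natDegree_X_pow_sub_C
      omega
    · exact hcop.of_isCoprime_of_dvd_right (cyc_dvd _)
  hrat := by
    intro r
    have : ((r : ℚ) : RatFunc ℚ) = algebraMap ℚ[X] (RatFunc ℚ) (C r) := by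
      simp
    rw [this]
    exact poly_mem _ _

theorem aCoeff_eq (M k : ℕ) : aCoeff k = (ctx M).a k := by
  unfold aCoeff Pool.Agent.MP_40e425_nt.Core80.Ctx.a
  induction k with
  | zero => simp
  | succ k ih =>
    rw [prod_Icc_succ_top (by omega), ih, prod_range_succ]
    congr 1
    unfold Pool.Agent.MP_40e425_nt.Core80.Ctx.rho Pool.Agent.MP_40e425_nt.Core80.Ctx.e
    rw [show 2 * ((k : ℤ) + 1) - 1 = ((2 * (k + 1) - 1 : ℕ) : ℤ) by omega,
      show 4 * ((k : ℤ) + 1) - 2 = ((4 * (k + 1) - 2 : ℕ) : ℤ) by omega,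
      show 2 * ((k : ℤ) + 1) = ((2 * (k + 1) : ℕ) : ℤ) by omega,
      show 4 * ((k : ℤ) + 1) = ((4 * (k + 1) : ℕ) : ℤ) by omega]
    simp only [zpow_natCast]
    rfl

theorem S_eq (M m : ℕ) : S m (4 * M + 1) = ∑ k ∈ range (m * (4 * M + 1)), (ctx M).tt k := by
  unfold S
  apply sum_congr rfl
  intro k _
  rw [aCoeff_eq M k]
  unfold Pool.Agent.MP_40e425_nt.Core80.Ctx.tt Pool.Agent.MP_40e425_nt.Core80.Ctx.e qInt
  rw [show 4 * (k : ℤ) + 1 = ((4 * k + 1 : ℕ) : ℤ) by push_cast; ring, zpow_natCast, zpow_natCast,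
    zpow_one]
  rfl

theorem lam_eq (M : ℕ) : lam (4 * M + 1) =
    Pool.Agent.MP_40e425_nt.WZ80.lam (RatFunc.X : RatFunc ℚ) M := by
  unfold lam Pool.Agent.MP_40e425_nt.WZ80.lam
  congr 1
  · unfold qInt Pool.Agent.MP_40e425_nt.WZ80.e
    rw [show 4 * (M : ℤ) + 1 = ((4 * M + 1 : ℕ) : ℤ) by push_cast; ring, zpow_natCast, zpow_one]
  · rw [show (4 * M + 1 - 1) / 4 = M by omega]
    induction M with
    | zero => simp
    | succ k ih =>
      rw [prod_Icc_succ_top (by omega), ih, prod_range_succ]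
      congr 1
      unfold Pool.Agent.MP_40e425_nt.WZ80.e
      rw [show 4 * ((k : ℤ) + 1) - 2 = ((4 * (k + 1) - 2 : ℕ) : ℤ) by omega,
        show 4 * ((k : ℤ) + 1) = ((4 * (k + 1) : ℕ) : ℤ) by omega]
      simp only [zpow_natCast]

theorem T_eq (M m : ℕ) : T m (4 * M + 1) = Pool.Agent.MP_40e425_nt.WZ80.lam (ctx M).q (ctx M).M *
    ∑ r ∈ range m, ((-1) ^ r * (4 * r + 1) *
      (Pool.Agent.MP_40e425_nt.Core80.Ctx.cs r : RatFunc ℚ)) := by
  unfold T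
  rw [lam_eq]
  rfl

/-- For all `m ≥ 1` and all `n ≥ 1` with `n ≡ 1 mod 4`,
`S_{m,n}(q) ≡ T_{m,n}(q)` modulo the third power of the `n`-th cyclotomic polynomial. -/
theorem result : ∀ m n : ℕ, 1 ≤ m → 1 ≤ n → n % 4 = 1 →
    CongrMod (cyclotomic n ℚ ^ 3) (S m n) (T m n) := by
  intro m n _ hn hn4
  obtain ⟨M, rfl⟩ : ∃ M, n = 4 * M + 1 := ⟨n / 4, by omega⟩
  have h := Pool.Agent.MP_40e425_nt.Core80.Ctx.total_all (c := ctx M) m
  rw [← T_eq, show (ctx M).M = M from rfl, ← S_eq] at h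
  obtain ⟨y, ⟨C, D, hD, hcop, rfl⟩, hy⟩ := h
  obtain ⟨Ψ, hΨ⟩ := cyc_dvd (4 * M + 1)
  have hu : (ctx M).u = algebraMap ℚ[X] (RatFunc ℚ) (cyclotomic (4 * M + 1) ℚ) *
      algebraMap ℚ[X] (RatFunc ℚ) Ψ := by
    rw [← map_mul, ← hΨ]
    unfold Pool.Agent.MP_40e425_nt.Core80.Ctx.u
    rw [map_sub, map_pow, RatFunc.algebraMap_X, map_one]
    rfl
  refine ⟨Ψ ^ 3 * C, D, hD, hcop.pow_right, ?_⟩
  rw [hy, hu, map_pow, map_mul, map_pow]
  ring

end Pool.Agent.Results.MP_40e425_nt.FifthPowers
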